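import Mathlib
import Pool.Agent.P8H88.HJ.Surj
import Pool.Agent.P8H88.HJ.Conv
import Pool.Agent.P8H88.HJ.Sparse

/-!
# The hypothesis of Hjorth's question is the perfect set property of coanalytic sets

Hjorth asked whether the hypothesis (H) that every uncountable boldface Sigma-1-2 set is a
continuous image of the sum of `C` and a countable discrete space, for every coanalytic set `C`
which is not Borel, implies Sigma-1-1-determinacy. We prove (in ZFC, without any assumption) that
(H) holds if and only if every uncountable coanalytic set has a nonempty perfect subset. Both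
implications are proved for each countable discrete space `D` separately.

The proof that the perfect set property implies (H): by Kondo's uniformization and boundedness,
families of sets of numbers which are definable from ranks of members of `C` are countable; this
gives countably many points outside of `C` and countably many colourings from which a continuous
decoder on `C` reads off a point of the Sigma-1-2 set together with a witness, checking that the
tree of the witness is embedded in the well-founded tree of the argument. The converse: from an
uncountable coanalytic set without perfect subsets which maps onto the Baire space, up to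
countably many points, we define a coanalytic set which is not Borel and is concentrated on a
countable set; this set does not map continuously onto the Baire space.
-/

set_option autoImplicit false

namespace Pool.Agent.Results.MP_73ea52_lc.HypIffPerfect

open MeasureTheory

/-- A subset of the Baire space is (boldface) `Σ¹₂` if it is the projection of a coanalytic subset
of the product of the Baire space with itself. -/
def IsSigma12 (B : Set (ℕ → ℕ)) : Prop :=
  ∃ P : Set ((ℕ → ℕ) × (ℕ → ℕ)), AnalyticSet Pᶜ ∧ B = Prod.fst '' P

/-- The hypothesis of the question, for the discrete space `D`: every uncountable `Σ¹₂` set `B`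
and every coanalytic set `C` which is not Borel are such that `B` is a continuous image of the
topological sum of `C` and `D`. -/
def HjorthHypothesis (D : Type) [TopologicalSpace D] : Prop :=
  ∀ B C : Set (ℕ → ℕ), IsSigma12 B → ¬ B.Countable →
    AnalyticSet Cᶜ → ¬ MeasurableSet[borel (ℕ → ℕ)] C →
    ∃ f : C ⊕ D → B, Continuous f ∧ Function.Surjective f

/-- Every uncountable coanalytic set has a nonempty perfect subset. -/
def CoanalyticPerfectSetProperty : Prop :=
  ∀ A : Set (ℕ → ℕ), AnalyticSet Aᶜ → ¬ A.Countable →
    ∃ P : Set (ℕ → ℕ), P ⊆ A ∧ Perfect P ∧ P.Nonempty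

/-- **The hypothesis of the question is equivalent to the perfect set property of coanalytic
sets**, for every countable discrete space `D`. -/
theorem result (D : Type) [TopologicalSpace D] [DiscreteTopology D] [Countable D] :
    HjorthHypothesis D ↔ CoanalyticPerfectSetProperty := by
  have hb : (borel (ℕ → ℕ)) = (MeasurableSpace.pi : MeasurableSpace (ℕ → ℕ)) :=
    (BorelSpace.measurable_eq (α := ℕ → ℕ)).symm
  constructor
  · intro H A hA hunc
    by_contra hthin
    have hAb : ¬ MeasurableSet A := fun h =>
      hthin (P8H88.HJ.perfect_of_borel h hunc)
    have huniv : IsSigma12 Set.univ :=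
      ⟨Set.univ, by rw [Set.compl_univ]; exact analyticSet_empty, by simp⟩
    have key : ∀ C : Set (ℕ → ℕ), AnalyticSet Cᶜ → ¬ MeasurableSet C →
        ∃ f : C ⊕ D → (ℕ → ℕ), Continuous f ∧ Function.Surjective f := by
      intro C hC hCb
      obtain ⟨f, hf1, hf2⟩ := H Set.univ C huniv P8H88.HJ.not_countable_univ hC
        (by rw [hb]; exact hCb)
      refine ⟨fun x => (f x).1, continuous_subtype_val.comp hf1, fun y => ?_⟩
      obtain ⟨x, hx⟩ := hf2 ⟨y, Set.mem_univ y⟩
      exact ⟨x, congrArg Subtype.val hx⟩
    obtain ⟨F, hF1, hF2⟩ := key A hA hAb
    obtain ⟨C₀, h1, h2, h3⟩ := P8H88.HJ.exists_sparse hA hunc hthin F hF1 hF2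
    obtain ⟨h4, h5, h6⟩ := P8H88.HJ.no_image_of_sparse h1 h2 h3
    obtain ⟨f, hf1, hf2⟩ := key _ h4 h5
    exact h6 D f hf1 hf2
  · rintro psp B C ⟨P, hP, rfl⟩ hunc hC hCb
    rw [hb] at hCb
    have hne : P.Nonempty := by
      by_contra h
      rw [Set.not_nonempty_iff_eq_empty] at h
      apply hunc
      rw [h, Set.image_empty]
      exact Set.countable_empty
    obtain ⟨f, hf1, hf2⟩ := P8H88.HJ.main psp P hP hne C hC hCb
    obtain ⟨p, hp⟩ := hne
    refine ⟨Sum.elim f fun _ => ⟨p.1, p, hp, rfl⟩, ?_, ?_⟩
    · exact hf1.sumElim continuous_const
    · intro y
      obtain ⟨x, hx⟩ := hf2 y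
      exact ⟨Sum.inl x, hx⟩

end Pool.Agent.Results.MP_73ea52_lc.HypIffPerfect
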